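import Mathlib

set_option autoImplicit false

/-!
# Statements for the project ZF: points with three relations on surfaces of the torus of dimension 5

All statements are definitions of propositions; their proofs are in other files.
-/

namespace Pool.Agent.Y740.Z

open Polynomial Real NumberField Height Module

/-! ## A lower bound for heights relative to cyclotomic fields -/

/-- The Frobenius congruence in a cyclotomic field, at one place. -/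
def S_F1 : Prop :=
  ∀ (W : Type) [Field W] [NumberField W] (M : ℕ) (ζ : W), 0 < M → IsPrimitiveRoot ζ M →
  ∀ (φ : W ≃ₐ[ℚ] W) (p : ℕ), p.Prime → φ ζ = ζ ^ p →
  ∀ v : FinitePlace W, v (p : W) < 1 →
  ∀ c ∈ IntermediateField.adjoin ℚ {ζ}, v c ≤ 1 → v (φ c - c ^ p) ≤ v (p : W)

/-- The Frobenius estimate for the product of the differences. -/
def S_FROB : Prop :=
  ∀ (W : Type) [Field W] [NumberField W] (M : ℕ) (ζ : W), 0 < M → IsPrimitiveRoot ζ M →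
  ∀ (φ : W ≃ₐ[ℚ] W) (p : ℕ), p.Prime → φ ζ = ζ ^ p →
  ∀ (D : ℕ) (α : Fin D → W),
    (∀ k, (∏ j, (X - C (α j)) : W[X]).coeff k ∈ IntermediateField.adjoin ℚ {ζ}) →
  ∀ (γ : W) (i : Fin D), φ γ = α i →
  ∀ v : FinitePlace W,
    ∏ j, v (γ ^ p - α j) ≤ v (p : W) * max 1 (v (γ ^ p)) ^ D * ∏ j, max 1 (v (α j))

/-- The energy inequality for nodes in a number field. -/
def S_INEQ : Prop :=
  ∀ (W : Type) [Field W] [NumberField W] (D : ℕ), 0 < D →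
  ∀ (P : Finset ℕ), (∀ p ∈ P, p.Prime) → ∀ (z : ℕ → Fin D → W) (h : ℝ),
  (∀ p ∈ insert 1 P, ∀ q ∈ insert 1 P, ∀ i j, (p, i) ≠ (q, j) → z p i ≠ z q j) →
  (∀ p ∈ insert 1 P, ∀ i, logHeight₁ (z p i) = p * h * finrank ℚ W) →
  (∀ p ∈ P, ∀ i, ∀ v : FinitePlace W,
    ∏ j, v (z p i - z 1 j) ≤ v (p : W) * max 1 (v (z p i)) ^ D * ∏ j, max 1 (v (z 1 j))) →
  ∀ (A N : ℝ), 0 ≤ A → 1 ≤ N →
  2 * A * ∑ p ∈ P, Real.log p ≤
    2 * (A + P.card) * (A + ∑ p ∈ P, (p : ℝ)) * (D * h)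
      + D * (A + P.card) ^ 2 / N + (A ^ 2 + P.card) * Real.log N

/-- The degree drops at few primes. -/
def S_BAD : Prop :=
  ∀ (W : Type) [Field W] [NumberField W] (L : IntermediateField ℚ W) (α : W), α ≠ 0 →
  ∀ B : Finset ℕ, (∀ p ∈ B, p.Prime) →
  (∀ p ∈ B, (minpoly L (α ^ p)).natDegree ≠ (minpoly L α).natDegree) →
  2 ^ B.card ≤ (minpoly L α).natDegree

/-- The relative Dobrowolski inequality. -/
def S_RDI : Prop :=
  ∀ (W : Type) [Field W] [NumberField W] [IsGalois ℚ W] (M : ℕ) (ζ : W), 0 < M →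
  IsPrimitiveRoot ζ M → ∀ α : W, α ≠ 0 → (∀ n : ℕ, 0 < n → α ^ n ≠ 1) →
  ∀ D : ℕ, (minpoly (IntermediateField.adjoin ℚ {ζ}) α).natDegree = D →
  ∀ P : Finset ℕ, (∀ p ∈ P, p.Prime ∧ ¬ p ∣ M ∧
    (minpoly (IntermediateField.adjoin ℚ {ζ}) (α ^ p)).natDegree = D) →
  ∀ (A N : ℝ), 0 ≤ A → 1 ≤ N →
  2 * A * ∑ p ∈ P, Real.log p ≤
    2 * (A + P.card) * (A + ∑ p ∈ P, (p : ℝ)) * (D * (logHeight₁ α / finrank ℚ W))
      + D * (A + P.card) ^ 2 / N + (A ^ 2 + P.card) * Real.log N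

/-- A lower bound for heights relative to cyclotomic fields. -/
def S_RD : Prop :=
  ∃ c : ℝ, 0 < c ∧ ∀ (K : Type) [Field K] [NumberField K] (M : ℕ) (ζ : K), 0 < M →
  IsPrimitiveRoot ζ M → ∀ g : K, g ≠ 0 → (∀ n : ℕ, 0 < n → g ^ n ≠ 1) →
  c * Nat.totient M / (Real.log (2 * finrank ℚ K)) ^ 3 ≤ logHeight₁ g

/-- A lower bound for Euler's function. -/
def S_TOT : Prop := ∀ M : ℕ, M ≤ 2 * Nat.totient M ^ 2

/-! ## Small relations -/

/-- A relation with small exponents, by the pigeonhole principle. -/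
def S_PIG : Prop :=
  ∀ (K : Type) [Field K] [NumberField K] (n ρ : ℕ) (x : Fin n → K), (∀ l, x l ≠ 0) →
  (∃ u : Fin ρ → Fin n → ℤ, LinearIndependent ℤ u ∧ ∀ k, ∏ l, x l ^ u k l = 1) →
  ∀ (H lam : ℝ), 0 < lam → (∀ l, logHeight₁ (x l) ≤ H) →
  (∀ g : K, g ≠ 0 → (∀ m : ℕ, 0 < m → g ^ m ≠ 1) → lam ≤ logHeight₁ g) →
  ∀ (M T k : ℕ), (∀ Z : Finset K, (∀ g ∈ Z, ∃ m : ℕ, 0 < m ∧ g ^ m = 1) → Z.card ≤ M) →
  0 < k → n * T * H < k * lam → M * k ^ (n - ρ) < (T + 1) ^ n →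
  ∃ b : Fin n → ℤ, b ≠ 0 ∧ (∀ l, |b l| ≤ T) ∧ ∏ l, x l ^ b l = 1

/-- Five numbers with three relations satisfy a relation with small exponents. -/
def S_REL : Prop :=
  ∀ B : ℝ, ∃ C : ℝ, ∀ (K : Type) [Field K] [NumberField K] (x : Fin 5 → K), (∀ l, x l ≠ 0) →
  (∃ u : Fin 3 → Fin 5 → ℤ, LinearIndependent ℤ u ∧ ∀ k, ∏ l, x l ^ u k l = 1) →
  (∀ l, logHeight₁ (x l) ≤ B * finrank ℚ K) →
  ∃ b : Fin 5 → ℤ, b ≠ 0 ∧ ∏ l, x l ^ b l = 1 ∧
    ∀ l, ((|b l| : ℤ) : ℝ) ^ 3 ≤ C * (finrank ℚ K) ^ 2 * (Real.log (2 * finrank ℚ K)) ^ 6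

/-! ## Algebraic functions -/

/-- the value at `(s, y)` of a polynomial in two variables -/
noncomputable def ev {k L : Type} [Field k] [Field L] [Algebra k L] (A : k[X][X]) (s y : L) : L :=
  A.eval₂ (Polynomial.aeval s : k[X] →ₐ[k] L).toRingHom y

/-- Places. -/
def S_PL : Prop :=
  ∀ (k W : Type) [Field k] [Field W] [Algebra k W] (t : W), Transcendental k t →
  ∃ V : ValuationSubring W, (∀ c : k, algebraMap k W c ∈ V) ∧ V.valuation t < 1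

/-- the algebraic closure of the field of rational functions -/
abbrev Alg (k : Type) [Field k] : Type := AlgebraicClosure (RatFunc k)

/-- the roots of `A` in the field of algebraic functions -/
def IsRt {k : Type} [Field k] (A : k[X][X]) (η : Alg k) : Prop :=
  A.eval₂ (algebraMap k[X] (Alg k)) η = 0

/-- Specialisation at a point. -/
def S_SPEC : Prop :=
  ∀ (k : Type) [Field k] [IsAlgClosed k] [CharZero k] (ι : Type) [Fintype ι] (A : ι → k[X][X])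
  (s : k), (∀ l, ((A l).coeff 0).eval s ≠ 0) → (∀ l, (A l).leadingCoeff.eval s ≠ 0) →
  ∃ V : ValuationSubring (Alg k),
    (∀ P : k[X], V.valuation (algebraMap k[X] (Alg k) P) ≤ 1) ∧
    (∀ P : k[X], V.valuation (algebraMap k[X] (Alg k) P) < 1 → P.eval s = 0) ∧
    (∀ l η, IsRt (A l) η → V.valuation η = 1) ∧
    ∀ x : ι → k, (∀ l, ev (A l) s (x l) = 0) →
      ∃ η : ι → Alg k, (∀ l, IsRt (A l) (η l)) ∧
        ∀ w : ι → ℤ, V.valuation (∏ l, η l ^ w l - 1) < 1 ↔ ∏ l, x l ^ w l = 1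

/-- Bounds at infinity. -/
def S_INF : Prop :=
  ∀ (k : Type) [Field k] [IsAlgClosed k] [CharZero k] (ι : Type) [Fintype ι] (A : ι → k[X][X]),
  (∀ l, (A l).coeff 0 ≠ 0) →
  ∃ (V : ValuationSubring (Alg k)) (κ : ℕ),
    1 < V.valuation (algebraMap k[X] (Alg k) X) ∧
    (∀ P : k[X], P ≠ 0 → V.valuation (algebraMap k[X] (Alg k) P) =
      V.valuation (algebraMap k[X] (Alg k) X) ^ P.natDegree) ∧
    ∀ l η, IsRt (A l) η → η ≠ 0 ∧
      V.valuation η ≤ V.valuation (algebraMap k[X] (Alg k) X) ^ κ ∧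
      V.valuation η⁻¹ ≤ V.valuation (algebraMap k[X] (Alg k) X) ^ κ

/-- Descent. -/
def S_DESC : Prop :=
  ∀ (k : Type) [Field k] [IsAlgClosed k] [CharZero k] (θ : Alg k),
  (∀ σ : Alg k ≃ₐ[RatFunc k] Alg k, σ θ = θ) → IsIntegral k[X] θ →
  ∃ P : k[X], algebraMap k[X] (Alg k) P = θ

/-- Points with a transcendental first coordinate. -/
def S_EMB : Prop :=
  ∀ (k : Type) [Field k] [IsAlgClosed k] [CharZero k] (ι : Type) [Fintype ι] (A : ι → k[X][X]),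
  (∀ l, (A l).coeff 0 ≠ 0) → ∀ (L : Type) [Field L] [Algebra k L] (s : L), Transcendental k s →
  ∀ x : ι → L, (∀ l, ev (A l) s (x l) = 0) →
  ∃ η : ι → Alg k, (∀ l, IsRt (A l) (η l)) ∧
    ∀ w : ι → ℤ, ∏ l, η l ^ w l = 1 ↔ ∏ l, x l ^ w l = 1

/-- the points of a curve that satisfy the relation `b` satisfy one of finitely many relations or
have one of few first coordinates -/
def FewZeros {k : Type} [Field k] {ι : Type} [Fintype ι] (A : ι → k[X][X])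
    (U : Finset (ι → ℤ)) (S : Finset k) (C : ℕ) : Prop :=
  ∀ b : ι → ℤ, b ≠ 0 → ∃ Z : Finset k, Z.card ≤ C * ∑ l, (b l).natAbs ∧
    ∀ s : k, s ∉ S → ∀ x : ι → k, (∀ l, ev (A l) s (x l) = 0) → ∏ l, x l ^ b l = 1 →
      (∃ u ∈ U, ∏ l, x l ^ u l = 1) ∨ s ∈ Z

/-- Relations on a curve. -/
def S_CURVE : Prop :=
  ∀ (k : Type) [Field k] [IsAlgClosed k] [CharZero k] (ι : Type) [Fintype ι] [DecidableEq ι]
  (A : ι → k[X][X]), (∀ l, (A l).coeff 0 ≠ 0) →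
  ∃ (U : Finset (ι → ℤ)) (S : Finset k) (C : ℕ), (∀ u ∈ U, u ≠ 0) ∧ FewZeros A U S C ∧
    ∀ (L : Type) [Field L] [Algebra k L] (s : L), Transcendental k s → ∀ x : ι → L,
      (∀ l, ev (A l) s (x l) = 0) → (∃ b : ι → ℤ, b ≠ 0 ∧ ∏ l, x l ^ b l = 1) →
      ∃ u ∈ U, ∏ l, x l ^ u l = 1

/-! ## Arithmetic -/

/-- Heights of the values of algebraic functions. -/
def S_HALG : Prop :=
  ∀ (A : (AlgebraicClosure ℚ)[X][X]), A ≠ 0 → ∀ B : ℝ,
  ∃ (B' : ℝ) (S : Finset (AlgebraicClosure ℚ)), ∀ s ∉ S, ∀ y : AlgebraicClosure ℚ,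
    ev A s y = 0 → NumberField.absLogHeight₁ s ≤ B → NumberField.absLogHeight₁ y ≤ B'

/-- The degree of a point of a curve that satisfies a relation. -/
def S_CONJ : Prop :=
  ∀ (n : ℕ) (A : Fin n → (AlgebraicClosure ℚ)[X][X]), (∀ l, (A l).coeff 0 ≠ 0) →
  ∀ (U : Finset (Fin n → ℤ)) (S : Finset (AlgebraicClosure ℚ)) (C : ℕ), FewZeros A U S C →
  ∃ (C' : ℕ) (S' : Finset (AlgebraicClosure ℚ)), ∀ s ∉ S', ∀ x : Fin n → AlgebraicClosure ℚ,
    (∀ l, ev (A l) s (x l) = 0) → ∀ b : Fin n → ℤ, b ≠ 0 → ∏ l, x l ^ b l = 1 →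
    (∃ u ∈ U, ∏ l, x l ^ u l = 1) ∨
      finrank ℚ (IntermediateField.adjoin ℚ (insert s (Set.range x))) ≤
        C' * ∑ l, (b l).natAbs

/-- Points of a curve in the torus of dimension five with three relations. -/
def S_ARITH : Prop :=
  ∀ (A : Fin 5 → (AlgebraicClosure ℚ)[X][X]), (∀ l, (A l).coeff 0 ≠ 0) →
  ∀ (U : Finset (Fin 5 → ℤ)) (S : Finset (AlgebraicClosure ℚ)) (C : ℕ), FewZeros A U S C →
  ∀ B : ℝ, ∃ S' : Finset (AlgebraicClosure ℚ), ∀ s ∉ S', ∀ x : Fin 5 → AlgebraicClosure ℚ,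
    (∀ l, ev (A l) s (x l) = 0) →
    (∃ u : Fin 3 → Fin 5 → ℤ, LinearIndependent ℤ u ∧ ∀ k, ∏ l, x l ^ u k l = 1) →
    NumberField.absLogHeight₁ s ≤ B → (∀ l, NumberField.absLogHeight₁ (x l) ≤ B) →
    ∃ u ∈ U, ∏ l, x l ^ u l = 1

end Pool.Agent.Y740.Z
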