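import Mathlib
import Pool.Agent.Y740.Z.Stm

set_option autoImplicit false

/-!
# Polynomials in two variables
-/

namespace Pool.Agent.Y740.Z

open Polynomial

variable {k : Type} [Field k]

lemma ev_C {L : Type} [Field L] [Algebra k L] (c : k[X]) (s y : L) :
    ev (C c) s y = aeval s c := by
  rw [ev, eval₂_C]
  rfl

lemma ev_X {L : Type} [Field L] [Algebra k L] (s y : L) : ev (X : k[X][X]) s y = y := by
  rw [ev, eval₂_X]

lemma ev_mul {L : Type} [Field L] [Algebra k L] (A B : k[X][X]) (s y : L) :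
    ev (A * B) s y = ev A s y * ev B s y := by
  rw [ev, ev, ev, eval₂_mul]

lemma ev_add {L : Type} [Field L] [Algebra k L] (A B : k[X][X]) (s y : L) :
    ev (A + B) s y = ev A s y + ev B s y := by
  rw [ev, ev, ev, eval₂_add]

lemma ev_sub {L : Type} [Field L] [Algebra k L] (A B : k[X][X]) (s y : L) :
    ev (A - B) s y = ev A s y - ev B s y := by
  rw [ev, ev, ev, eval₂_sub]

lemma ev_pow {L : Type} [Field L] [Algebra k L] (A : k[X][X]) (n : ℕ) (s y : L) :
    ev (A ^ n) s y = ev A s y ^ n := by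
  rw [ev, ev, eval₂_pow]

/-- a polynomial in two variables as a polynomial in the second one -/
noncomputable def toP (F : MvPolynomial (Fin 2) k) : k[X][X] :=
  F.eval₂ ((C : k[X] →+* k[X][X]).comp (C : k →+* k[X])) ![C X, X]

lemma ev_toP {L : Type} [Field L] [Algebra k L] (F : MvPolynomial (Fin 2) k) (s y : L) :
    ev (toP F) s y = MvPolynomial.aeval ![s, y] F := by
  induction F using MvPolynomial.induction_on with
  | C c =>
    rw [toP, MvPolynomial.eval₂_C, RingHom.comp_apply, ev_C, aeval_C, MvPolynomial.aeval_C]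
  | add P Q hP hQ =>
    have e1 : toP (P + Q) = toP P + toP Q := by rw [toP, toP, toP, MvPolynomial.eval₂_add]
    rw [e1, ev_add, hP, hQ, map_add]
  | mul_X P i hP =>
    have e1 : toP (P * MvPolynomial.X i) = toP P * toP (MvPolynomial.X i) := by
      rw [toP, toP, toP, MvPolynomial.eval₂_mul]
    have e2 : ev (toP (MvPolynomial.X i : MvPolynomial (Fin 2) k)) s y = ![s, y] i := by
      rw [toP, MvPolynomial.eval₂_X]
      fin_cases i
      · show ev (C X) s y = s
        rw [ev_C, aeval_X]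
      · show ev (X : k[X][X]) s y = y
        exact ev_X s y
    rw [e1, ev_mul, hP, e2, map_mul, MvPolynomial.aeval_X]

lemma toP_ne [Infinite k] {F : MvPolynomial (Fin 2) k} (hF : F ≠ 0) : toP F ≠ 0 := by
  intro h0
  apply hF
  apply MvPolynomial.funext
  intro x
  have h1 := ev_toP (L := k) F (x 0) (x 1)
  rw [h0] at h1
  have h2 : (![x 0, x 1] : Fin 2 → k) = x := by
    funext i
    fin_cases i <;> rfl
  rw [h2] at h1
  have h3 : ev (0 : k[X][X]) (x 0) (x 1) = 0 := by rw [ev, eval₂_zero]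
  rw [h3] at h1
  rw [map_zero, ← MvPolynomial.coe_aeval_eq_eval]
  exact h1.symm

/-- a polynomial in two variables, with a nonzero constant coefficient -/
theorem exists_A [Infinite k] {F : MvPolynomial (Fin 2) k} (hF : F ≠ 0) :
    ∃ A : k[X][X], A.coeff 0 ≠ 0 ∧ ∀ (L : Type) [Field L] [Algebra k L] (s y : L), y ≠ 0 →
      MvPolynomial.aeval ![s, y] F = 0 → ev A s y = 0 := by
  obtain ⟨q, hq, hnd⟩ := exists_eq_pow_rootMultiplicity_mul_and_not_dvd (toP F) (toP_ne hF) 0
  refine ⟨q, ?_, fun L _ _ s y hy h => ?_⟩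
  · intro h0
    apply hnd
    rw [dvd_iff_isRoot, IsRoot.def, ← coeff_zero_eq_eval_zero]
    exact h0
  · rw [← ev_toP, hq, ev_mul, ev_pow, ev_sub, ev_X] at h
    have e1 : ev (C (0 : k[X])) s y = 0 := by rw [ev_C, map_zero]
    rw [e1, sub_zero] at h
    exact (mul_eq_zero.mp h).resolve_left (pow_ne_zero _ hy)

variable {p r : ℕ}

/-- numerator of a coordinate of the base curve -/
noncomputable def nm (ν : Fin p → Fin r → ℤ) (a : Fin r → k) (g : Fin p → k) (j : Fin p) : k[X] :=
  C (g j) * ∏ i, (X - C (a i)) ^ (ν j i).toNat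

/-- denominator of a coordinate of the base curve -/
noncomputable def dn (ν : Fin p → Fin r → ℤ) (a : Fin r → k) (j : Fin p) : k[X] :=
  ∏ i, (X - C (a i)) ^ (-ν j i).toNat

/-- equation of a coordinate of the base curve -/
noncomputable def bA (ν : Fin p → Fin r → ℤ) (a : Fin r → k) (g : Fin p → k) (j : Fin p) :
    k[X][X] := C (dn ν a j) * X - C (nm ν a g j)

lemma bA_coeff (ν : Fin p → Fin r → ℤ) (a : Fin r → k) (g : Fin p → k) (hg : ∀ j, g j ≠ 0)
    (j : Fin p) : (bA ν a g j).coeff 0 ≠ 0 := by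
  rw [bA, coeff_sub, mul_coeff_zero, coeff_X_zero, mul_zero, coeff_C_zero, zero_sub]
  apply neg_ne_zero.mpr
  rw [nm]
  apply mul_ne_zero
  · rw [Ne, C_eq_zero]; exact hg j
  · exact Finset.prod_ne_zero_iff.mpr fun i _ => pow_ne_zero _ (X_sub_C_ne_zero _)

lemma bA_ev {L : Type} [Field L] [Algebra k L] (ν : Fin p → Fin r → ℤ) (a : Fin r → k)
    (g : Fin p → k) (s : L) (hs : ∀ i, s ≠ algebraMap k L (a i)) (j : Fin p) :
    ev (bA ν a g j) s
      (algebraMap k L (g j) * ∏ i, (s - algebraMap k L (a i)) ^ ν j i) = 0 := by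
  rw [bA, ev_sub, ev_mul, ev_C, ev_C, ev_X, dn, nm]
  simp only [map_mul, map_prod, map_pow, map_sub, aeval_X, aeval_C]
  rw [mul_left_comm, ← mul_sub, ← Finset.prod_mul_distrib]
  convert mul_zero _
  rw [sub_eq_zero]
  apply Finset.prod_congr rfl
  intro i _
  have h0 : s - algebraMap k L (a i) ≠ 0 := sub_ne_zero.mpr (hs i)
  rw [← zpow_natCast, ← zpow_natCast, ← zpow_add₀ h0]
  congr 1
  have h1 := Int.toNat_sub_toNat_neg (ν j i)
  omega

end Pool.Agent.Y740.Z
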