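import Mathlib
import Pool.Agent.Y740.G.Height
import Pool.Agent.Y740.G.HeightMain

set_option autoImplicit false

/-!
# The height of the first coordinate of a point with many relations
-/

namespace Pool.Agent.Y740.Z

open Real NumberField Height Module Polynomial Pool.Agent.Y740 Pool.Agent.Y740.S
  Pool.Agent.Y740.G

variable {p r t : ℕ}

/-- the height of `s` is bounded -/
theorem height_s_bound (hr : 0 < r) (ν : Fin p → Fin r → ℤ)
    (hν : ∀ b : Fin p → ℝ, (fun i => ∑ j, b j * (ν j i : ℝ)) = 0 → b = 0)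
    (a : Fin r → Qb) (ha : Function.Injective a) (g : Fin p → Qb) (hg : ∀ j, g j ≠ 0) :
    ∃ B : ℝ, ∀ (s : Qb) (y : Fin t → Qb), (∀ i, s ≠ a i) → (∀ i, y i ≠ 0) →
      HasRelations (G.crd ν a g s y) (t + 1) → NumberField.absLogHeight₁ s ≤ B := by
  classical
  obtain ⟨W, hW, hWb⟩ := exists_lower (fun j i => (ν j i : ℝ)) fun b hb => hν b (funext hb)
  set H₁ : ℝ := ∑ i, ∑ j, (log 2 + 2 * NumberField.absLogHeight₁ (a i - a j)) with hH₁
  set H₂ : ℝ := ∑ j, NumberField.absLogHeight₁ (a j) with hH₂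
  set H₃ : ℝ := ∑ j, NumberField.absLogHeight₁ (g j) with hH₃
  have hl2 : 0 < log 2 := Real.log_pos (by norm_num)
  refine ⟨H₁ + W * (2 * H₃) + H₂ + log 2, fun s y hs hy hrel => ?_⟩
  obtain ⟨K, hK, hG, hmem⟩ := exists_galois (({s} ∪ Set.range y) ∪ (Set.range a ∪ Set.range g))
    (((Set.finite_singleton s).union (Set.finite_range y)).union
      ((Set.finite_range a).union (Set.finite_range g)))
  have hn := finrank_pos_real (K := K)
  let aK : Fin r → K := fun j => ⟨a j, hmem _ (Or.inr (Or.inl ⟨j, rfl⟩))⟩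
  let gK : Fin p → K := fun j => ⟨g j, hmem _ (Or.inr (Or.inr ⟨j, rfl⟩))⟩
  let sK : K := ⟨s, hmem _ (Or.inl (Or.inl rfl))⟩
  let yK : Fin t → K := fun i => ⟨y i, hmem _ (Or.inl (Or.inr ⟨i, rfl⟩))⟩
  have hht : ∀ x : K, logHeight₁ x = NumberField.absLogHeight₁ (x : Qb) * finrank ℚ K := by
    intro x
    have h1 := ht_eq (algebraMap K Qb) x
    have e : algebraMap K Qb x = (x : Qb) := rfl
    rw [e] at h1
    rw [h1, div_mul_cancel₀ _ hn.ne']
  have haK : Function.Injective aK :=
    fun i j hij => ha (congrArg (fun x : K => (x : Qb)) hij)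
  have hsK : ∀ j, sK ≠ aK j := fun j h => hs j (congrArg (fun x : K => (x : Qb)) h)
  have hyK : ∀ i, yK i ≠ 0 := fun i h => hy i (congrArg (fun x : K => (x : Qb)) h)
  have hgK : ∀ j, gK j ≠ 0 := fun j h => hg j (congrArg (fun x : K => (x : Qb)) h)
  have hrelK : HasRelations (G.crd ν aK gK sK yK) (t + 1) := by
    obtain ⟨u, hu, hr⟩ := hrel
    refine ⟨u, hu, fun k => ?_⟩
    apply (algebraMap K Qb).injective
    rw [map_prod, map_one, ← hr k]
    apply Finset.prod_congr rfl
    intro j _
    rw [map_zpow₀]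
    congr 1
    rcases j with j | j
    · exact G.map_bc (algebraMap K Qb) ν aK gK sK j
    · rfl
  obtain ⟨i, hi⟩ := G.height_s (m := t) hr ν W hW hWb aK haK gK sK yK hgK hsK hyK hrelK
  have h1 : ∑ j ∈ Finset.univ.erase i,
      (finrank ℚ K * log 2 + 2 * logHeight₁ (aK i - aK j)) ≤ H₁ * finrank ℚ K := by
    have e1 : ∀ j, finrank ℚ K * log 2 + 2 * logHeight₁ (aK i - aK j) =
        (log 2 + 2 * NumberField.absLogHeight₁ (a i - a j)) * finrank ℚ K := by
      intro j
      rw [hht]
      have : ((aK i - aK j : K) : Qb) = a i - a j := rfl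
      rw [this]; ring
    simp only [e1]
    rw [← Finset.sum_mul]
    apply mul_le_mul_of_nonneg_right _ hn.le
    calc ∑ j ∈ Finset.univ.erase i, (log 2 + 2 * NumberField.absLogHeight₁ (a i - a j))
        ≤ ∑ j, (log 2 + 2 * NumberField.absLogHeight₁ (a i - a j)) := by
          apply Finset.sum_le_sum_of_subset_of_nonneg (Finset.erase_subset _ _)
          intro j _ _
          have := ht_nonneg (a i - a j); positivity
      _ ≤ H₁ := by
          apply Finset.single_le_sum (f := fun i => ∑ j, (log 2 +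
            2 * NumberField.absLogHeight₁ (a i - a j)))
          · intro i _
            apply Finset.sum_nonneg
            intro j _
            have := ht_nonneg (a i - a j); positivity
          · exact Finset.mem_univ i
  have h2 : logHeight₁ sK ≤ totalWeight K * log 2 + logHeight₁ (sK - aK i) +
      logHeight₁ (aK i) := by
    have := logHeight₁_add_le (sK - aK i) (aK i)
    rwa [sub_add_cancel] at this
  have h3 : logHeight₁ (aK i) ≤ H₂ * finrank ℚ K := by
    rw [hht]
    apply mul_le_mul_of_nonneg_right _ hn.le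
    exact Finset.single_le_sum (f := fun j => NumberField.absLogHeight₁ (a j))
      (fun j _ => ht_nonneg (a j)) (Finset.mem_univ i)
  have h4 : ∑ j, 2 * logHeight₁ (gK j) = 2 * H₃ * finrank ℚ K := by
    rw [← Finset.mul_sum, hH₃, mul_assoc, Finset.sum_mul]
    congr 1
    apply Finset.sum_congr rfl
    intro j _
    rw [hht]
  rw [h4] at hi
  rw [NumberField.totalWeight_eq_finrank] at h2
  have h5 : logHeight₁ sK ≤ (H₁ + W * (2 * H₃) + H₂ + log 2) * finrank ℚ K := by nlinarith
  rw [hht] at h5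
  have e2 : ((sK : K) : Qb) = s := rfl
  rw [e2] at h5
  exact le_of_mul_le_mul_right h5 hn

end Pool.Agent.Y740.Z
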