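import Mathlib
import Pool.Agent.Y740.G.Main

set_option autoImplicit false

/-!
# The theorem at the level of the base coordinates, and the exchange of the coordinates
-/

namespace Pool.Agent.Y740.Z

open Polynomial Pool.Agent.Y740 Pool.Agent.Y740.S Pool.Agent.Y740.G

variable {p r q : ℕ}

lemma prod_one_zpow {ι L : Type} [Fintype ι] [DecidableEq ι] [Field L] (x : ι → L) (k : ι) :
    ∏ l, x l ^ (1 : Matrix ι ι ℤ) k l = x k := by
  rw [Finset.prod_eq_single k]
  · rw [Matrix.one_apply_eq, zpow_one]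
  · intro l _ hl
    rw [Matrix.one_apply_ne (Ne.symm hl), zpow_zero]
  · intro h
    exact absurd (Finset.mem_univ k) h

/-- the theorem at the level of the base coordinates -/
theorem mainD (p r q n : ℕ) (hp : 0 < p) (ν : Fin p → Fin r → ℤ) (hν : LinearIndependent ℤ ν)
    (a : Fin r → Qb) (ha : Function.Injective a) (g : Fin p → Qb) (hg : ∀ j, g j ≠ 0)
    (hS : Scattered ν a g)
    (α : Fin (n + 1) → Qb[X]) (hα : ∀ k, α k ≠ 0) (e : Fin (n + 1) → Fin (q + 2) → ℕ)
    (he : Function.Injective e)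
    (hspan : LinearIndependent ℤ (fun (i : Fin (q + 2)) (k : Fin (n + 1)) =>
      (e k i : ℤ) - (e 0 i : ℤ)))
    (hirr : {s : Qb | ¬ Irreducible (mv (fun k => (α k).eval s) e)}.Finite)
    (hR : (¬ ∃ v : Fin (q + 2) → ℕ, ∀ k, ∃ l, e k + e l = v) ∨ FewReflexive ν a g α e) :
    ∃ F : MvPolynomial (Fin (q + 2)) Qb, F ≠ 0 ∧
      ∀ (L : Type) [Field L] [Algebra Qb L] (s : L) (y : Fin (q + 2) → L),
        (∀ i, s ≠ algebraMap Qb L (a i)) → (∀ i, y i ≠ 0) →
        ∑ k, aeval s (α k) * ∏ i, y i ^ e k i = 0 →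
        HasRelations (G.crd ν (fun i => algebraMap Qb L (a i)) (fun j => algebraMap Qb L (g j)) s y)
          (q + 3) →
        MvPolynomial.aeval (Fin.cons s fun i : Fin (q + 1) => y i.succ : Fin (q + 2) → L) F =
          0 := by
  obtain ⟨F, hF, h⟩ := mainC p r q n hp ν hν a ha g hg hS α hα e he hspan hirr hR 1 (by simp)
  refine ⟨F, hF, fun L _ _ s y hs hy hV hrel => ?_⟩
  refine h L s (G.crd ν (fun i => algebraMap Qb L (a i)) (fun j => algebraMap Qb L (g j)) s y) y
    ?_ ?_ ?_ hV hrel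
  · rintro (j | i)
    · exact G.bc_ne ν _ _ s (fun j => (_root_.map_ne_zero _).mpr (hg j)) hs j
    · exact hy i
  · intro j
    rw [prod_one_zpow]
    rfl
  · intro i
    rw [prod_one_zpow]
    rfl

lemma mv_perm {m n : ℕ} (σ : Equiv.Perm (Fin m)) (c : Fin n → Qb) (e : Fin n → Fin m → ℕ) :
    mv c (fun k i => e k (σ i)) = MvPolynomial.rename σ.symm (mv c e) := by
  rw [mv, mv, map_sum]
  apply Finset.sum_congr rfl
  intro k _
  rw [MvPolynomial.rename_monomial]
  have h2 : toF (fun i => e k (σ i)) = (toF (e k)).mapDomain σ.symm := by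
    ext i
    have h1 := Finsupp.mapDomain_apply σ.symm.injective (toF (e k)) (σ i)
    rw [Equiv.symm_apply_apply] at h1
    rw [h1]
    rfl
  rw [h2]

lemma irr_perm {m n : ℕ} (σ : Equiv.Perm (Fin m)) (c : Fin n → Qb) (e : Fin n → Fin m → ℕ)
    (h : Irreducible (mv c e)) : Irreducible (mv c (fun k i => e k (σ i))) := by
  rw [mv_perm]
  have h1 : MvPolynomial.rename σ.symm (mv c e) = MvPolynomial.renameEquiv Qb σ.symm (mv c e) := rfl
  rw [h1]
  exact (MulEquiv.irreducible_iff (MvPolynomial.renameEquiv Qb σ.symm)).mpr h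

lemma mo_perm {m : ℕ} {F : Type*} [CommRing F] (σ : Equiv.Perm (Fin m)) (y : Fin m → F)
    (u : Fin m → ℕ) : mo (fun i => y (σ i)) (fun i => u (σ i)) = mo y u := by
  rw [mo, mo]
  exact Equiv.prod_comp σ (fun i => y i ^ u i)

lemma reflInv_perm {m n : ℕ} (σ : Equiv.Perm (Fin m)) (c : Fin n → ℂ) (e : Fin n → Fin m → ℕ)
    (ρ : Fin m → ℝ) (h : ReflInv c (fun k i => e k (σ i)) ρ) :
    ReflInv c e (fun i => ρ (σ.symm i)) := by
  intro y hy h0
  have h1 := h (fun i => y (σ i)) (fun i => hy _) (by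
    rw [← h0]
    apply Finset.sum_congr rfl
    intro k _
    rw [mo_perm])
  rw [← h1]
  apply Finset.sum_congr rfl
  intro k _
  rw [← mo_perm σ]
  simp only [Equiv.symm_apply_apply]

/-- both coordinates of the fibres satisfy an equation -/
theorem two_polys (p r n : ℕ) (hp : 0 < p) (ν : Fin p → Fin r → ℤ) (hν : LinearIndependent ℤ ν)
    (a : Fin r → Qb) (ha : Function.Injective a) (g : Fin p → Qb) (hg : ∀ j, g j ≠ 0)
    (hS : Scattered ν a g)
    (α : Fin (n + 1) → Qb[X]) (hα : ∀ k, α k ≠ 0) (e : Fin (n + 1) → Fin 2 → ℕ)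
    (he : Function.Injective e)
    (hspan : LinearIndependent ℤ (fun (i : Fin 2) (k : Fin (n + 1)) =>
      (e k i : ℤ) - (e 0 i : ℤ)))
    (hirr : {s : Qb | ¬ Irreducible (mv (fun k => (α k).eval s) e)}.Finite)
    (hR : (¬ ∃ v : Fin 2 → ℕ, ∀ k, ∃ l, e k + e l = v) ∨ FewReflexive (q := 0) ν a g α e) :
    ∃ F : Fin 2 → MvPolynomial (Fin 2) Qb, (∀ i, F i ≠ 0) ∧
      ∀ (L : Type) [Field L] [Algebra Qb L] (s : L) (y : Fin 2 → L),
        (∀ i, s ≠ algebraMap Qb L (a i)) → (∀ i, y i ≠ 0) →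
        ∑ k, aeval s (α k) * ∏ i, y i ^ e k i = 0 →
        HasRelations (G.crd ν (fun i => algebraMap Qb L (a i)) (fun j => algebraMap Qb L (g j)) s y)
          3 → ∀ i, MvPolynomial.aeval ![s, y i] (F i) = 0 := by
  classical
  obtain ⟨F₁, hF₁, h₁⟩ := mainD p r 0 n hp ν hν a ha g hg hS α hα e he hspan hirr hR
  set σ : Equiv.Perm (Fin 2) := Equiv.swap 0 1 with hσ
  have hσσ : ∀ i, σ (σ i) = i := fun i => Equiv.swap_apply_self 0 1 i
  have he' : Function.Injective (fun (k : Fin (n + 1)) (i : Fin 2) => e k (σ i)) := by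
    intro k k' h
    apply he
    funext i
    have := congrFun h (σ i)
    simp only [hσσ] at this
    exact this
  have hspan' : LinearIndependent ℤ (fun (i : Fin 2) (k : Fin (n + 1)) =>
      (e k (σ i) : ℤ) - (e 0 (σ i) : ℤ)) := hspan.comp σ σ.injective
  have hirr' : {s : Qb | ¬ Irreducible (mv (fun k => (α k).eval s) (fun k i => e k (σ i)))}.Finite :=
    hirr.subset fun s hs h => hs (irr_perm σ _ _ h)
  have hR' : (¬ ∃ v : Fin 2 → ℕ, ∀ k, ∃ l, (fun i => e k (σ i)) + (fun i => e l (σ i)) = v) ∨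
      FewReflexive (q := 0) ν a g α (fun k i => e k (σ i)) := by
    rcases hR with h | h
    · left
      rintro ⟨v, hv⟩
      apply h
      refine ⟨fun i => v (σ i), fun k => ?_⟩
      obtain ⟨l, hl⟩ := hv k
      refine ⟨l, ?_⟩
      funext i
      have := congrFun hl (σ i)
      simp only [Pi.add_apply, hσσ] at this
      simpa using this
    · right
      intro Ψ b M hb K hK hKa
      refine (h Ψ b (fun i => M (σ i)) hb K hK hKa).subset ?_
      rintro z ⟨hz, h1, h2⟩
      refine ⟨hz, h1, ?_⟩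
      have h3 := reflInv_perm σ (fun k => ((α k).map Ψ).eval z) e
        (fun i => Real.exp (2 * ∑ j, M i j * lg ν a g Ψ z j)) h2
      have h4 : σ.symm = σ := Equiv.symm_swap 0 1
      simp only [h4] at h3
      exact h3
  obtain ⟨F₀, hF₀, h₀⟩ := mainD p r 0 n hp ν hν a ha g hg hS α hα (fun k i => e k (σ i)) he'
    hspan' hirr' hR'
  refine ⟨![F₀, F₁], fun i => by fin_cases i <;> assumption, fun L _ _ s y hs hy hV hrel => ?_⟩
  have h3 : ∀ y' : Fin 2 → L, (Fin.cons s fun i : Fin 1 => y' i.succ : Fin 2 → L) = ![s, y' 1] := by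
    intro y'
    funext i
    fin_cases i <;> rfl
  have h4 := h₁ L s y hs hy hV hrel
  rw [h3] at h4
  have h5 := h₀ L s (fun i => y (σ i)) hs (fun i => hy _) (by
    rw [← hV]
    apply Finset.sum_congr rfl
    intro k _
    congr 1
    exact Equiv.prod_comp σ (fun i => y i ^ e k i)) (by
    obtain ⟨u, hu, hr⟩ := hrel
    let τ : Fin p ⊕ Fin 2 ≃ Fin p ⊕ Fin 2 := Equiv.sumCongr (Equiv.refl _) σ
    have hcrd : ∀ l, G.crd ν (fun i => algebraMap Qb L (a i)) (fun j => algebraMap Qb L (g j)) s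
        (fun i => y (σ i)) l =
        G.crd ν (fun i => algebraMap Qb L (a i)) (fun j => algebraMap Qb L (g j)) s y (τ l) := by
      rintro (j | i) <;> rfl
    refine ⟨fun k l => u k (τ l), ?_, fun k => ?_⟩
    · have h6 := hu.map' (LinearMap.funLeft ℤ ℤ τ) (LinearMap.ker_eq_bot.mpr
        (LinearMap.funLeft_injective_of_surjective ℤ ℤ τ τ.surjective))
      exact h6
    · simp only [hcrd]
      rw [← hr k]
      exact Equiv.prod_comp τ (fun l => G.crd ν (fun i => algebraMap Qb L (a i))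
        (fun j => algebraMap Qb L (g j)) s y l ^ u k l))
  have h5' : MvPolynomial.aeval ![s, y (σ 1)] F₀ = 0 := by
    rw [← h3 (fun i => y (σ i))]
    exact h5
  have h6 : σ 1 = 0 := Equiv.swap_apply_right 0 1
  rw [h6] at h5'
  intro i
  fin_cases i
  · exact h5'
  · exact h4

end Pool.Agent.Y740.Z
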