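import Mathlib
import Pool.Agent.Y740.Z.Stm
import Pool.Agent.Y740.Z.Conv
import Pool.Agent.Y740.Z.HS
import Pool.Agent.Y740.Z.Swap

set_option autoImplicit false

/-!
# Points with three relations on surfaces of the torus of dimension five
-/

namespace Pool.Agent.Y740.Z

open Polynomial Pool.Agent.Y740 Pool.Agent.Y740.S Pool.Agent.Y740.G

lemma zpow_sum_eq' {L ι : Type} [Field L] (s : Finset ι) (x : L) (hx : x ≠ 0) (f : ι → ℤ) :
    x ^ ∑ i ∈ s, f i = ∏ i ∈ s, x ^ f i := by
  classical
  induction s using Finset.induction_on with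
  | empty => simp
  | insert a s ha ih => rw [Finset.sum_insert ha, Finset.prod_insert ha, zpow_add₀ hx, ih]

/-- a relation between the first coordinates -/
lemma pure_rel {L : Type} [Field L] {p t : ℕ} (z : Fin p → L) (y : Fin t → L)
    (hz : ∀ j, z j ≠ 0) (hy : ∀ i, y i ≠ 0)
    (h : HasRelations (Sum.elim z y : Fin p ⊕ Fin t → L) (t + 1)) :
    ∃ w : Fin p → ℤ, w ≠ 0 ∧ ∏ j, z j ^ w j = 1 := by
  obtain ⟨u, hu, hr⟩ := h
  have hdep : ¬ LinearIndependent ℤ (fun (k : Fin (t + 1)) (i : Fin t) => u k (Sum.inr i)) := by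
    intro hli
    have := hli.fintype_card_le_finrank
    rw [Fintype.card_fin, Module.finrank_fin_fun] at this
    omega
  obtain ⟨c, hc, k0, hk0⟩ := Fintype.not_linearIndependent_iff.mp hdep
  refine ⟨fun j => ∑ k, c k * u k (Sum.inl j), ?_, ?_⟩
  · intro h0
    apply hk0
    refine Fintype.linearIndependent_iff.mp hu c ?_ k0
    funext l
    rw [Finset.sum_apply]
    rcases l with j | i
    · have := congrFun h0 j
      simpa [smul_eq_mul] using this
    · have := congrFun hc i
      rw [Finset.sum_apply] at this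
      simpa [smul_eq_mul] using this
  · have h1 : ∏ k, (∏ l, (Sum.elim z y : Fin p ⊕ Fin t → L) l ^ u k l) ^ c k = 1 :=
      Finset.prod_eq_one fun k _ => by rw [hr k, one_zpow]
    have hne : ∀ l, (Sum.elim z y : Fin p ⊕ Fin t → L) l ≠ 0 := by
      rintro (j | i)
      · exact hz j
      · exact hy i
    have h2 : ∏ k, (∏ l, (Sum.elim z y : Fin p ⊕ Fin t → L) l ^ u k l) ^ c k =
        ∏ l, (Sum.elim z y : Fin p ⊕ Fin t → L) l ^ ∑ k, c k * u k l := by
      simp only [← Finset.prod_zpow, ← zpow_mul]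
      rw [Finset.prod_comm]
      apply Finset.prod_congr rfl
      intro l _
      rw [zpow_sum_eq' _ _ (hne l)]
      apply Finset.prod_congr rfl
      intro k _
      rw [mul_comm]
    rw [h2, Fintype.prod_sum_type] at h1
    have h3 : ∏ i, (Sum.elim z y : Fin p ⊕ Fin t → L) (Sum.inr i) ^ ∑ k, c k * u k (Sum.inr i) =
        1 := by
      apply Finset.prod_eq_one
      intro i _
      have := congrFun hc i
      rw [Finset.sum_apply] at this
      have h4 : ∑ k, c k * u k (Sum.inr i) = 0 := by simpa [smul_eq_mul] using this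
      rw [h4, zpow_zero]
    rw [h3, mul_one] at h1
    exact h1

/-- elements algebraic over an algebraically closed field -/
lemma exists_lift_alg {k L : Type} [Field k] [IsAlgClosed k] [Field L] [Algebra k L] (x : L)
    (hx : IsAlgebraic k x) : ∃ x0 : k, algebraMap k L x0 = x := by
  have h1 := minpoly.irreducible hx.isIntegral
  have h2 := IsAlgClosed.degree_eq_one_of_irreducible k h1
  exact minpoly.mem_range_of_degree_eq_one k x h2

lemma ev_map {k L : Type} [Field k] [Field L] [Algebra k L] (A : k[X][X]) (s y : k) :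
    ev A (algebraMap k L s) (algebraMap k L y) = algebraMap k L (ev A s y) := by
  rw [ev, ev, Polynomial.hom_eval₂]
  congr 1
  ext c
  · simp
  · simp

lemma alg_of_ev {k L : Type} [Field k] [Field L] [Algebra k L] (A : k[X][X]) (s : k) (y : L)
    (h0 : (A.coeff 0).eval s ≠ 0) (h : ev A (algebraMap k L s) y = 0) : IsAlgebraic k y := by
  refine ⟨A.map (evalRingHom s), ?_, ?_⟩
  · intro h1
    apply h0
    have := congrArg (fun P => P.coeff 0) h1
    simpa [coeff_map] using this
  · rw [aeval_def, eval₂_map, ← h, ev]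
    congr 1
    ext c
    · simp
    · simp

variable {r : ℕ}

/-- the theorem at the level of the base coordinates -/
theorem surf (hC : S_CURVE) (hAr : S_ARITH) (hH : S_HALG) (r n : ℕ)
    (ν : Fin 3 → Fin r → ℤ) (hν : LinearIndependent ℤ ν)
    (a : Fin r → Qb) (ha : Function.Injective a) (g : Fin 3 → Qb) (hg : ∀ j, g j ≠ 0)
    (hS : Scattered ν a g)
    (α : Fin (n + 1) → Qb[X]) (hα : ∀ k, α k ≠ 0) (e : Fin (n + 1) → Fin 2 → ℕ)
    (he : Function.Injective e)
    (hspan : LinearIndependent ℤ (fun (i : Fin 2) (k : Fin (n + 1)) =>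
      (e k i : ℤ) - (e 0 i : ℤ)))
    (hirr : {s : Qb | ¬ Irreducible (mv (fun k => (α k).eval s) e)}.Finite)
    (hR : (¬ ∃ v : Fin 2 → ℕ, ∀ k, ∃ l, e k + e l = v) ∨ FewReflexive (q := 0) ν a g α e) :
    ∃ U : Finset (Fin 3 ⊕ Fin 2 → ℤ), (∀ u ∈ U, u ≠ 0) ∧
      ∀ (L : Type) [Field L] [Algebra Qb L] (s : L) (y : Fin 2 → L),
        (∀ i, s ≠ algebraMap Qb L (a i)) → (∀ i, y i ≠ 0) →
        ∑ k, aeval s (α k) * ∏ i, y i ^ e k i = 0 →
        HasRelations (G.crd ν (fun i => algebraMap Qb L (a i)) (fun j => algebraMap Qb L (g j)) s y)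
          3 →
        ∃ u ∈ U, ∏ l, G.crd ν (fun i => algebraMap Qb L (a i)) (fun j => algebraMap Qb L (g j)) s y
          l ^ u l = 1 := by
  classical
  -- preliminaries
  have hr : 0 < r := by
    rcases Nat.eq_zero_or_pos r with h0 | h0
    · exfalso
      subst h0
      exact hν.ne_zero 0 (funext fun i => i.elim0)
    · exact h0
  have hνR : ∀ b : Fin 3 → ℝ, (fun i => ∑ j, b j * (ν j i : ℝ)) = 0 → b = 0 := by
    intro b hb
    have h1 := Fintype.linearIndependent_iff.mp (real_indep ν hν) b (by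
      rw [← hb]
      funext i
      simp only [Finset.sum_apply, Pi.smul_apply, smul_eq_mul])
    exact funext h1
  obtain ⟨F, hF0, hF⟩ := two_polys 3 r n (by norm_num) ν hν a ha g hg hS α hα e he hspan hirr hR
  choose A hA0 hAev using fun i => exists_A (hF0 i)
  let φ : Fin 5 ≃ Fin 3 ⊕ Fin 2 := (finSumFinEquiv (m := 3) (n := 2)).symm
  set A' : Fin 3 ⊕ Fin 2 → Qb[X][X] := Sum.elim (bA ν a g) A with hA'
  have hA'0 : ∀ l, (A' l).coeff 0 ≠ 0 := by
    rintro (j | i)
    · exact bA_coeff ν a g hg j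
    · exact hA0 i
  set A5 : Fin 5 → Qb[X][X] := fun l => A' (φ l) with hA5
  have hA50 : ∀ l, (A5 l).coeff 0 ≠ 0 := fun l => hA'0 (φ l)
  obtain ⟨U, S, C, hU0, hfew, htr⟩ := hC Qb (Fin 5) A5 hA50
  obtain ⟨B, hB⟩ := height_s_bound (t := 2) hr ν hνR a ha g hg
  have hAne : ∀ l, A5 l ≠ 0 := fun l h => hA50 l (by rw [h, coeff_zero])
  choose B' S' hB' using fun l => hH (A5 l) (hAne l) B
  set Bm : ℝ := |B| + ∑ l, |B' l| with hBm
  have hBm1 : B ≤ Bm := by
    have h1 : 0 ≤ ∑ l, |B' l| := Finset.sum_nonneg fun l _ => abs_nonneg _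
    have := le_abs_self B
    linarith
  have hBm2 : ∀ l, B' l ≤ Bm := by
    intro l
    have h1 := Finset.single_le_sum (f := fun l => |B' l|) (fun l _ => abs_nonneg _)
      (Finset.mem_univ l)
    have h2 := le_abs_self (B' l)
    have h3 := abs_nonneg B
    linarith
  obtain ⟨S2, hS2⟩ := hAr A5 hA50 U S C hfew Bm
  set T : Finset Qb := S2 ∪ (Finset.univ.biUnion S') ∪
    (Finset.univ.biUnion fun l => ((A5 l).coeff 0).roots.toFinset) with hT
  -- the relations of the bad fibres
  set PR : Qb → (Fin 3 → ℤ) → Prop := fun s w => w ≠ 0 ∧ ∏ j, bc ν a g s j ^ w j = 1 with hPR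
  set W : Qb → (Fin 3 ⊕ Fin 2 → ℤ) := fun s =>
    if h : ∃ w, PR s w then Sum.elim h.choose 0 else fun _ => 1 with hW
  have hW0 : ∀ s, W s ≠ 0 := by
    intro s
    rw [hW]
    dsimp only
    split_ifs with h
    · intro h0
      apply h.choose_spec.1
      funext j
      exact congrFun h0 (Sum.inl j)
    · intro h0
      have := congrFun h0 (Sum.inl 0)
      simp at this
  set V : Finset (Fin 3 ⊕ Fin 2 → ℤ) :=
    (U.image fun u l => u (φ.symm l)) ∪ T.image W with hV
  refine ⟨V, ?_, ?_⟩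
  · intro u hu
    rw [hV, Finset.mem_union, Finset.mem_image, Finset.mem_image] at hu
    rcases hu with ⟨u', hu', rfl⟩ | ⟨s, -, rfl⟩
    · intro h0
      apply hU0 u' hu'
      funext l
      have := congrFun h0 (φ l)
      simpa using this
    · exact hW0 s
  intro L _ _ s y hs hy hV' hrel
  -- the equations of the coordinates
  have hAF := hF L s y hs hy hV' hrel
  set z := G.crd ν (fun i => algebraMap Qb L (a i)) (fun j => algebraMap Qb L (g j)) s y with hz
  have hzne : ∀ l, z l ≠ 0 := by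
    rintro (j | i)
    · exact G.bc_ne ν _ _ s (fun j => (_root_.map_ne_zero _).mpr (hg j)) hs j
    · exact hy i
  have hevz : ∀ l, ev (A' l) s (z l) = 0 := by
    rintro (j | i)
    · exact bA_ev ν a g s hs j
    · exact hAev i L s (y i) (hy i) (hAF i)
  have hev5 : ∀ l, ev (A5 l) s (z (φ l)) = 0 := fun l => hevz (φ l)
  obtain ⟨u, hu, hur⟩ := hrel
  have hu5 : LinearIndependent ℤ (fun (k : Fin 3) (l : Fin 5) => u k (φ l)) := by
    have h6 := hu.map' (LinearMap.funLeft ℤ ℤ φ) (LinearMap.ker_eq_bot.mpr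
      (LinearMap.funLeft_injective_of_surjective ℤ ℤ φ φ.surjective))
    exact h6
  have hr5 : ∀ k, ∏ l, z (φ l) ^ u k (φ l) = 1 := fun k => by
    rw [← hur k]
    exact Equiv.prod_comp φ (fun l => z l ^ u k l)
  have hback : ∀ u' : Fin 5 → ℤ, ∏ l, z (φ l) ^ u' l = 1 → ∏ l, z l ^ u' (φ.symm l) = 1 := by
    intro u' h
    rw [← h, ← Equiv.prod_comp φ]
    apply Finset.prod_congr rfl
    intro l _
    rw [Equiv.symm_apply_apply]
  by_cases hst : Transcendental Qb s
  · -- `s` is transcendental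
    obtain ⟨u', hu', h⟩ := htr L s hst (fun l => z (φ l)) hev5
      ⟨fun l => u 0 (φ l), hu5.ne_zero 0, hr5 0⟩
    refine ⟨fun l => u' (φ.symm l), ?_, hback u' h⟩
    rw [hV, Finset.mem_union, Finset.mem_image]
    exact Or.inl ⟨u', hu', rfl⟩
  -- `s` is algebraic
  rw [Transcendental, not_not] at hst
  obtain ⟨s0, rfl⟩ := exists_lift_alg s hst
  have hs0 : ∀ i, s0 ≠ a i := fun i h => hs i (by rw [h])
  have hzj : ∀ j, z (Sum.inl j) = algebraMap Qb L (bc ν a g s0 j) := fun j =>
    (G.map_bc (algebraMap Qb L) ν a g s0 j).symm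
  have hinj := (algebraMap Qb L).injective
  by_cases hsT : s0 ∈ T
  · -- a bad fibre
    obtain ⟨w, hw0, hw⟩ := pure_rel (fun j => z (Sum.inl j)) y (fun j => hzne _) hy
      ⟨u, hu, fun k => by
        rw [← hur k]
        apply Finset.prod_congr rfl
        rintro (j | i) _ <;> rfl⟩
    have hex : ∃ w, PR s0 w := by
      refine ⟨w, hw0, ?_⟩
      apply hinj
      rw [map_one, ← hw, map_prod]
      apply Finset.prod_congr rfl
      intro j _
      rw [map_zpow₀, hzj]
    refine ⟨W s0, ?_, ?_⟩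
    · rw [hV, Finset.mem_union, Finset.mem_image, Finset.mem_image]
      exact Or.inr ⟨s0, hsT, rfl⟩
    · rw [hW]
      dsimp only
      rw [dif_pos hex, Fintype.prod_sum_type]
      have h1 := hex.choose_spec.2
      have h2 : ∏ j, z (Sum.inl j) ^ hex.choose j = 1 := by
        have h3 := congrArg (algebraMap Qb L) h1
        rw [map_one, map_prod] at h3
        rw [← h3]
        apply Finset.prod_congr rfl
        intro j _
        rw [map_zpow₀, hzj]
      simp only [Sum.elim_inl, Sum.elim_inr, Pi.zero_apply, zpow_zero, Finset.prod_const_one,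
        mul_one]
      exact h2
  · -- a good fibre
    rw [hT, Finset.mem_union, Finset.mem_union, not_or, not_or, Finset.mem_biUnion,
      Finset.mem_biUnion] at hsT
    obtain ⟨⟨hT1, hT2⟩, hT3⟩ := hsT
    push Not at hT2 hT3
    have hT2' : ∀ l, s0 ∉ S' l := fun l => hT2 l (Finset.mem_univ l)
    have hT3' : ∀ l, ((A5 l).coeff 0).eval s0 ≠ 0 := by
      intro l h
      apply hT3 l (Finset.mem_univ l)
      rw [Multiset.mem_toFinset, mem_roots (hA50 l)]
      exact h
    have hlift : ∀ l, ∃ x0 : Qb, algebraMap Qb L x0 = z (φ l) := fun l =>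
      exists_lift_alg _ (alg_of_ev (A5 l) s0 _ (hT3' l) (hev5 l))
    choose x0 hx0 using hlift
    have hy0 : ∀ i, ∃ y0 : Qb, algebraMap Qb L y0 = y i := by
      intro i
      refine ⟨x0 (φ.symm (Sum.inr i)), ?_⟩
      rw [hx0, Equiv.apply_symm_apply]
      rfl
    choose y0 hy0' using hy0
    have hy0ne : ∀ i, y0 i ≠ 0 := fun i h => hy i (by rw [← hy0', h, map_zero])
    have hx0ev : ∀ l, ev (A5 l) s0 (x0 l) = 0 := by
      intro l
      apply hinj
      rw [map_zero, ← ev_map, hx0]
      exact hev5 l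
    have hx0r : ∀ k, ∏ l, x0 l ^ u k (φ l) = 1 := by
      intro k
      apply hinj
      rw [map_one, map_prod, ← hr5 k]
      apply Finset.prod_congr rfl
      intro l _
      rw [map_zpow₀, hx0]
    have hrel0 : HasRelations (G.crd ν a g s0 y0) 3 := by
      refine ⟨u, hu, fun k => ?_⟩
      apply hinj
      rw [map_one, map_prod, ← hur k]
      apply Finset.prod_congr rfl
      rintro (j | i) _
      · rw [map_zpow₀, hzj]
        rfl
      · rw [map_zpow₀]
        congr 1
        exact hy0' i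
    have hhs : NumberField.absLogHeight₁ s0 ≤ B := hB s0 y0 hs0 hy0ne hrel0
    have hhx : ∀ l, NumberField.absLogHeight₁ (x0 l) ≤ Bm := fun l =>
      (hB' l s0 (hT2' l) (x0 l) (hx0ev l) hhs).trans (hBm2 l)
    obtain ⟨u', hu', h⟩ := hS2 s0 hT1 x0 hx0ev ⟨fun k l => u k (φ l), hu5, hx0r⟩
      (hhs.trans hBm1) hhx
    refine ⟨fun l => u' (φ.symm l), ?_, hback u' ?_⟩
    · rw [hV, Finset.mem_union, Finset.mem_image]
      exact Or.inl ⟨u', hu', rfl⟩
    · have h3 := congrArg (algebraMap Qb L) h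
      rw [map_one, map_prod] at h3
      rw [← h3]
      apply Finset.prod_congr rfl
      intro l _
      rw [map_zpow₀, hx0]

end Pool.Agent.Y740.Z
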