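import Mathlib
import Pool.Agent.Y740.Z.Surf
import Pool.Agent.Y274.ZF.F1
import Pool.Agent.Y261.ZF.Frob
import Pool.Agent.Y657.ZF.Ineq
import Pool.Agent.Y394.ZF.Bad
import Pool.Agent.Y686.ZF.Rdi
import Pool.Agent.Y100.ZF.Rd
import Pool.Agent.Y51.ZF.Tot
import Pool.Agent.Y447.Z.Pig
import Pool.Agent.Y427.ZF.Rel
import Pool.Agent.Y51.ZF.Pl
import Pool.Agent.Y427.ZF.Spec
import Pool.Agent.Y824.ZF.Inf
import Pool.Agent.Y51.ZF.Desc
import Pool.Agent.Y51.ZF.Emb
import Pool.Agent.Y44.ZF.Curve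
import Pool.Agent.Y708.ZF.Halg
import Pool.Agent.Y44.ZF.Conj
import Pool.Agent.Y500.ZF.Arith

set_option autoImplicit false

/-!
# Zilber–Pink for surfaces of the torus of dimension five
-/

namespace Pool.Agent.Y740.Z

open Polynomial Pool.Agent.Y740 Pool.Agent.Y740.S Pool.Agent.Y740.G

/-- all statements -/
theorem all : S_CURVE ∧ S_ARITH ∧ S_HALG := by
  have hFROB := Pool.Agent.Y261.ZF.t_FROB Pool.Agent.Y274.ZF.t_F1
  have hRDI := Pool.Agent.Y686.ZF.t_RDI hFROB Pool.Agent.Y657.ZF.t_INEQ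
  have hRD := Pool.Agent.Y100.ZF.t_RD Pool.Agent.Y394.ZF.t_BAD Pool.Agent.Y51.ZF.t_TOT hRDI
  have hREL := Pool.Agent.Y427.ZF.t_REL hRD Pool.Agent.Y447.Z.t_PIG Pool.Agent.Y51.ZF.t_TOT
  have hSPEC := Pool.Agent.Y427.ZF.t_SPEC Pool.Agent.Y51.ZF.t_PL
  have hINF := Pool.Agent.Y824.ZF.t_INF Pool.Agent.Y51.ZF.t_PL
  exact ⟨Pool.Agent.Y44.ZF.t_CURVE hSPEC hINF Pool.Agent.Y51.ZF.t_DESC Pool.Agent.Y51.ZF.t_EMB,
    Pool.Agent.Y500.ZF.t_ARITH hREL Pool.Agent.Y44.ZF.t_CONJ, Pool.Agent.Y708.ZF.t_HALG⟩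

/-- relations are pulled back by an isogeny -/
lemma pull {L ι : Type} [Field L] [Fintype ι] [DecidableEq ι] (x : ι → L) (hx : ∀ l, x l ≠ 0)
    (E : Matrix ι ι ℤ) (w : ι → ℤ) :
    ∏ l, x l ^ (Matrix.vecMul w E) l = ∏ j, (∏ l, x l ^ E j l) ^ w j := by
  simp only [← Finset.prod_zpow, ← zpow_mul]
  rw [Finset.prod_comm]
  apply Finset.prod_congr rfl
  intro l _
  rw [Matrix.vecMul, dotProduct, zpow_sum_eq' _ _ (hx l)]
  apply Finset.prod_congr rfl
  intro j _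
  rw [mul_comm]

/-- the theorem -/
theorem surfE (r n : ℕ)
    (ν : Fin 3 → Fin r → ℤ) (hν : LinearIndependent ℤ ν)
    (a : Fin r → Qb) (ha : Function.Injective a) (g : Fin 3 → Qb) (hg : ∀ j, g j ≠ 0)
    (hS : Scattered ν a g)
    (α : Fin (n + 1) → Qb[X]) (hα : ∀ k, α k ≠ 0) (e : Fin (n + 1) → Fin 2 → ℕ)
    (he : Function.Injective e)
    (hspan : LinearIndependent ℤ (fun (i : Fin 2) (k : Fin (n + 1)) =>
      (e k i : ℤ) - (e 0 i : ℤ)))
    (hirr : {s : Qb | ¬ Irreducible (mv (fun k => (α k).eval s) e)}.Finite)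
    (hR : (¬ ∃ v : Fin 2 → ℕ, ∀ k, ∃ l, e k + e l = v) ∨ FewReflexive (q := 0) ν a g α e)
    (E : Matrix (Fin 3 ⊕ Fin 2) (Fin 3 ⊕ Fin 2) ℤ) (hE : E.det ≠ 0) :
    ∃ U : Finset (Fin 3 ⊕ Fin 2 → ℤ), (∀ u ∈ U, u ≠ 0) ∧
      ∀ (L : Type) [Field L] [Algebra Qb L] (s : L)
        (x : Fin 3 ⊕ Fin 2 → L) (y : Fin 2 → L),
        (∀ k, x k ≠ 0) →
        (∀ j : Fin 3, ∏ l, x l ^ E (Sum.inl j) l =
          algebraMap Qb L (g j) * ∏ i, (s - algebraMap Qb L (a i)) ^ ν j i) →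
        (∀ i, ∏ l, x l ^ E (Sum.inr i) l = y i) →
        ∑ k, aeval s (α k) * ∏ i, y i ^ e k i = 0 →
        (∃ u : Fin 3 → (Fin 3 ⊕ Fin 2) → ℤ, LinearIndependent ℤ u ∧
          ∀ k, ∏ l, x l ^ u k l = 1) →
        ∃ u ∈ U, ∏ l, x l ^ u l = 1 := by
  classical
  obtain ⟨hC, hAr, hH⟩ := all
  obtain ⟨U, hU0, hU⟩ := surf hC hAr hH r n ν hν a ha g hg hS α hα e he hspan hirr hR
  have hinj : ∀ w : Fin 3 ⊕ Fin 2 → ℤ, Matrix.vecMul w E = 0 → w = 0 := fun w hw =>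
    Matrix.eq_zero_of_vecMul_eq_zero hE hw
  -- the relations of the fibres over the `a i`
  set PR : Qb → (Fin 3 → ℤ) → Prop := fun s w => w ≠ 0 ∧
    ∏ j, (g j * ∏ i, (s - a i) ^ ν j i) ^ w j = 1 with hPR
  set W : Qb → (Fin 3 ⊕ Fin 2 → ℤ) := fun s =>
    if h : ∃ w, PR s w then Sum.elim h.choose 0 else fun _ => 1 with hW
  have hW0 : ∀ s, W s ≠ 0 := by
    intro s
    rw [hW]
    dsimp only
    split_ifs with h
    · intro h0
      apply h.choose_spec.1
      funext j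
      exact congrFun h0 (Sum.inl j)
    · intro h0
      have := congrFun h0 (Sum.inl 0)
      simp at this
  set V : Finset (Fin 3 ⊕ Fin 2 → ℤ) := U ∪ (Finset.univ.image a).image W with hV
  refine ⟨V.image fun w => Matrix.vecMul w E, ?_, ?_⟩
  · intro u hu
    rw [Finset.mem_image] at hu
    obtain ⟨w, hw, rfl⟩ := hu
    intro h0
    have h1 := hinj w h0
    rw [hV, Finset.mem_union, Finset.mem_image] at hw
    rcases hw with hw | ⟨s, -, hs⟩
    · exact hU0 w hw h1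
    · exact hW0 s (hs.trans h1)
  intro L _ _ s x y hx hj hy hV' hrel
  have hz : ∀ k, ∏ l, x l ^ E k l ≠ 0 := fun k =>
    Finset.prod_ne_zero_iff.mpr fun l _ => zpow_ne_zero _ (hx l)
  have h1 := HasRelations.isog x hx E hE 3 hrel
  have h2 : (fun k => ∏ l, x l ^ E k l) =
      G.crd ν (fun i => algebraMap Qb L (a i)) (fun j => algebraMap Qb L (g j)) s y := by
    funext k
    rcases k with j | i
    · exact hj j
    · exact hy i
  have hfin : ∀ w ∈ V, ∏ j, (∏ l, x l ^ E j l) ^ w j = 1 →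
      ∃ u ∈ V.image fun w => Matrix.vecMul w E, ∏ l, x l ^ u l = 1 := by
    intro w hw h
    refine ⟨Matrix.vecMul w E, Finset.mem_image_of_mem _ hw, ?_⟩
    rw [pull x hx, h]
  by_cases hs : ∃ i, s = algebraMap Qb L (a i)
  · -- a fibre over one of the `a i`
    obtain ⟨i0, rfl⟩ := hs
    have h3 : (fun k => ∏ l, x l ^ E k l) =
        Sum.elim (fun j => ∏ l, x l ^ E (Sum.inl j) l) (fun i => ∏ l, x l ^ E (Sum.inr i) l) := by
      funext k
      rcases k with j | i <;> rfl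
    rw [h3] at h1
    obtain ⟨w, hw0, hw⟩ := pure_rel _ _ (fun j => hz _) (fun i => hz _) h1
    have hcast : ∀ j : Fin 3, ∏ l, x l ^ E (Sum.inl j) l =
        algebraMap Qb L (g j * ∏ i, (a i0 - a i) ^ ν j i) := by
      intro j
      rw [hj j, map_mul, map_prod]
      simp only [map_zpow₀, map_sub]
    have hex : ∃ w, PR (a i0) w := by
      refine ⟨w, hw0, ?_⟩
      apply (algebraMap Qb L).injective
      rw [map_one, ← hw, map_prod]
      apply Finset.prod_congr rfl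
      intro j _
      rw [map_zpow₀, hcast j]
    apply hfin (W (a i0))
    · rw [hV, Finset.mem_union, Finset.mem_image]
      exact Or.inr ⟨a i0, Finset.mem_image_of_mem _ (Finset.mem_univ _), rfl⟩
    · rw [hW]
      dsimp only
      rw [dif_pos hex, Fintype.prod_sum_type]
      simp only [Sum.elim_inl, Sum.elim_inr, Pi.zero_apply, zpow_zero, Finset.prod_const_one,
        mul_one]
      have h4 := congrArg (algebraMap Qb L) hex.choose_spec.2
      rw [map_one, map_prod] at h4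
      rw [← h4]
      apply Finset.prod_congr rfl
      intro j _
      rw [map_zpow₀, hcast j]
  · push Not at hs
    rw [h2] at h1
    obtain ⟨w, hw, h⟩ := hU L s y hs (fun i => by rw [← hy i]; exact hz _) hV' h1
    apply hfin w
    · rw [hV, Finset.mem_union]
      exact Or.inl hw
    · rw [← h]
      exact Finset.prod_congr rfl fun k _ => by rw [← congrFun h2 k]

end Pool.Agent.Y740.Z
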